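import Pool.Agent.Lib.Pf91712.Diag

/-!
There is an oracle `O` relative to which the parameterized `Σ₂` problem
`∃ u₁ ... u_k ∀ v₁ ... v_k R(u, v)` (numbers with `log n` binary digits, the relation `R` given by the
oracle) is not fpt Turing reducible to any function in `#W[P]` relative to `O`. More precisely, for
every such function `F` and every exponent `c`, all slices with large `k` cannot be decided in time
`a * (n + 1) ^ c` with queries to `O` and to `F` with parameter at most `g`, whatever `a` and `g` are.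
-/

namespace Pool.Agent.Results.MP_f91712_lc.RelativizedBarrier

open Pool.Agent.Lib.Pa76659 Pool.Agent.Lib.Pf91712

theorem result : ∃ O : Lang, ∀ F ∈ SharpWP O, ¬ FptTuring O F (SigmaTwo O) ∧
    ∀ c : ℕ, ∃ K : ℕ, ∀ k, K ≤ k → ∀ (M : Prog) (a g : ℕ), ¬ Solves O F (SigmaTwo O) M a g c k := by
  obtain ⟨O, hO⟩ := diag
  refine ⟨O, fun F hF => ⟨?_, hO F hF⟩⟩
  rintro ⟨M, f, g, c, h⟩
  obtain ⟨K, hK⟩ := hO F hF c
  exact hK K le_rfl M (f K) (g K) (h K)

end Pool.Agent.Results.MP_f91712_lc.RelativizedBarrier
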